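import Mathlib

set_option autoImplicit false

open MeasureTheory ProbabilityTheory

namespace Pool.Agent.H274Z.HC

/-- The law `μ` on configurations (`true` is 1, `false` is 0) is hard-core: almost surely no two
neighbouring sites are both 1. -/
def IsHardCore (μ : Measure (ℤ → Bool)) : Prop :=
  ∀ᵐ x ∂μ, ∀ i : ℤ, ¬ (x i = true ∧ x (i + 1) = true)

/-- The law `μ` is invariant under the shift. -/
def IsStationary (μ : Measure (ℤ → Bool)) : Prop :=
  μ.map (fun (x : ℤ → Bool) (i : ℤ) => x (i + 1)) = μ

/-- The law `μ` is `k`-dependent: the families of coordinates indexed by two sets at distance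
greater than `k` are independent. -/
def IsKDependent (k : ℕ) (μ : Measure (ℤ → Bool)) : Prop :=
  ∀ A B : Set ℤ, (∀ a ∈ A, ∀ b ∈ B, (k : ℤ) < |a - b|) →
    IndepFun (fun (x : ℤ → Bool) (a : A) => x a) (fun (x : ℤ → Bool) (b : B) => x b) μ

/-- The supremum of the one-vertex marginals of stationary `k`-dependent hard-core processes. -/
noncomputable def critDensity (k : ℕ) : ℝ :=
  sSup {t : ℝ | ∃ μ : Measure (ℤ → Bool), IsProbabilityMeasure μ ∧ IsHardCore μ ∧
    IsStationary μ ∧ IsKDependent k μ ∧ t = μ.real {x | x 0 = true}}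

end Pool.Agent.H274Z.HC
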