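import Mathlib

set_option autoImplicit false

namespace Pool.Agent.H274Z.HC

/-- the density -/
noncomputable def pp : ℝ := 60 / 169
/-- the conditional probability of a one two steps after a one -/
noncomputable def uu : ℝ := 692 / 1521

abbrev St := ℝ × ℝ × ℝ

noncomputable def al (v : St) : ℝ := pp * v.1 + uu * v.2.2
def ff (v : St) : ℝ := v.1 + v.2.1 + v.2.2
noncomputable def opA (v : St) : St := (0, al v, 0)
noncomputable def opZ (v : St) : St := (v.1 + v.2.2, - al v, v.2.1)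

lemma rec_nonneg (s : ℕ → ℝ)
    (hrec : ∀ n, s (n + 3) = s (n + 2) - uu * s (n + 1) + (uu - pp) * s n) (N : ℕ)
    (h0 : ∀ n, n < N → 0 ≤ s n)
    (hd : 0 ≤ s (N + 2) - 20 / 39 * s (N + 1) + 8 / 39 * s N)
    (hq : ((s (N + 3) - 19 / 39 * s (N + 2)) - 1 / 39 * (s (N + 2) - 19 / 39 * s (N + 1))) ^ 2
      - 20 / 39 * ((s (N + 3) - 19 / 39 * s (N + 2)) - 1 / 39 * (s (N + 2) - 19 / 39 * s (N + 1)))
        * ((s (N + 2) - 19 / 39 * s (N + 1)) - 1 / 39 * (s (N + 1) - 19 / 39 * s N))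
      + 8 / 39 * ((s (N + 2) - 19 / 39 * s (N + 1)) - 1 / 39 * (s (N + 1) - 19 / 39 * s N)) ^ 2
      ≤ 212 / 1521 * (s (N + 2) - 20 / 39 * s (N + 1) + 8 / 39 * s N) ^ 2) :
    ∀ n, 0 ≤ s n := by
  set d : ℕ → ℝ := fun n => s (n + 2) - 20 / 39 * s (n + 1) + 8 / 39 * s n with hdd
  set g : ℕ → ℝ := fun n =>
    (s (n + 2) - 19 / 39 * s (n + 1)) - 1 / 39 * (s (n + 1) - 19 / 39 * s n) with hgg
  have d1 : ∀ n, d (n + 1) = 19 / 39 * d n := by
    intro n
    simp only [hdd, show n + 1 + 2 = n + 3 by ring, show n + 1 + 1 = n + 2 by ring, hrec n, uu, pp]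
    ring
  have g1 : ∀ n, g (n + 2) = 20 / 39 * g (n + 1) - 8 / 39 * g n := by
    intro n
    have h1 := hrec n
    have h2 := hrec (n + 1)
    simp only [show n + 1 + 3 = n + 4 by ring, show n + 1 + 2 = n + 3 by ring,
      show n + 1 + 1 = n + 2 by ring] at h2
    simp only [hgg, show n + 2 + 2 = n + 4 by ring, show n + 2 + 1 = n + 3 by ring,
      show n + 1 + 2 = n + 3 by ring, show n + 1 + 1 = n + 2 by ring, h2, h1, uu, pp]
    ring
  have inv : ∀ k, 0 ≤ d (N + k) ∧ g (N + k + 1) ^ 2 - 20 / 39 * g (N + k + 1) * g (N + k)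
      + 8 / 39 * g (N + k) ^ 2 ≤ 212 / 1521 * d (N + k) ^ 2 := by
    intro k
    induction k with
    | zero => exact ⟨hd, hq⟩
    | succ k ih =>
      obtain ⟨i1, i2⟩ := ih
      have e1 : d (N + (k + 1)) = 19 / 39 * d (N + k) := d1 (N + k)
      have e2 : g (N + (k + 1) + 1) = 20 / 39 * g (N + k + 1) - 8 / 39 * g (N + k) := g1 (N + k)
      have e3 : g (N + (k + 1)) = g (N + k + 1) := rfl
      rw [e1, e2, e3]
      constructor
      · positivity
      · nlinarith [sq_nonneg (d (N + k))]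
  intro n
  by_cases hn : n < N
  · exact h0 n hn
  · obtain ⟨k, rfl⟩ : ∃ k, n = N + k := ⟨n - N, by omega⟩
    obtain ⟨i1, i2⟩ := inv k
    have h1 : g (N + k) ^ 2 ≤ d (N + k) ^ 2 := by
      nlinarith [sq_nonneg (g (N + k + 1) - 10 / 39 * g (N + k))]
    have h2 : g (N + k) ≤ d (N + k) := le_trans (le_abs_self _) (by
      rw [← abs_of_nonneg i1]; exact sq_le_sq.1 h1)
    simp only [hdd, hgg] at h2
    linarith

lemma iter_rec (v : St) (φ : St → ℝ) (a b c : ℝ) (hφ : ∀ w, φ w = a * w.1 + b * w.2.1 + c * w.2.2)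
    (n : ℕ) : φ (opZ^[n + 3] v) =
      φ (opZ^[n + 2] v) - uu * φ (opZ^[n + 1] v) + (uu - pp) * φ (opZ^[n] v) := by
  simp only [Function.iterate_succ_apply', hφ]
  generalize opZ^[n] v = w
  simp only [opZ, al]
  ring

/-- states from which all runs of zeros have nonnegative weight -/
def Good (v : St) : Prop := ∀ n, 0 ≤ al (opZ^[n] v) ∧ 0 ≤ ff (opZ^[n] v)

lemma al_lin (w : St) : al w = pp * w.1 + 0 * w.2.1 + uu * w.2.2 := by simp [al]
lemma ff_lin (w : St) : ff w = 1 * w.1 + 1 * w.2.1 + 1 * w.2.2 := by simp [ff]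

lemma good_a : Good (0, 1, 0) := by
  intro n
  constructor
  · refine rec_nonneg (fun n => al (opZ^[n] (0, 1, 0))) (iter_rec _ _ _ _ _ al_lin) 7 ?_ ?_ ?_ n
    · intro n hn
      interval_cases n <;> norm_num [opZ, al, pp, uu]
    · norm_num [opZ, al, pp, uu]
    · norm_num [opZ, al, pp, uu]
  · refine rec_nonneg (fun n => ff (opZ^[n] (0, 1, 0))) (iter_rec _ _ _ _ _ ff_lin) 1 ?_ ?_ ?_ n
    · intro n hn
      interval_cases n
      norm_num [opZ, al, ff, pp, uu]
    · norm_num [opZ, al, ff, pp, uu]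
    · norm_num [opZ, al, ff, pp, uu]

lemma good_e : Good (1, 0, 0) := by
  intro n
  constructor
  · refine rec_nonneg (fun n => al (opZ^[n] (1, 0, 0))) (iter_rec _ _ _ _ _ al_lin) 1 ?_ ?_ ?_ n
    · intro n hn
      interval_cases n
      norm_num [opZ, al, pp, uu]
    · norm_num [opZ, al, pp, uu]
    · norm_num [opZ, al, pp, uu]
  · refine rec_nonneg (fun n => ff (opZ^[n] (1, 0, 0))) (iter_rec _ _ _ _ _ ff_lin) 0 ?_ ?_ ?_ n
    · intro n hn
      omega
    · norm_num [opZ, al, ff, pp, uu]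
    · norm_num [opZ, al, ff, pp, uu]

lemma good_Z {v : St} (h : Good v) : Good (opZ v) := fun n => h (n + 1)

lemma iter_smul (c : ℝ) (v : St) (n : ℕ) : opZ^[n] (c • v) = c • opZ^[n] v := by
  induction n with
  | zero => rfl
  | succ n ih =>
    rw [Function.iterate_succ_apply', Function.iterate_succ_apply', ih]
    generalize opZ^[n] v = w
    simp only [opZ, al, Prod.smul_mk, Prod.smul_fst, Prod.smul_snd, smul_eq_mul, Prod.mk.injEq]
    refine ⟨by ring, by ring, trivial⟩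

lemma good_A {v : St} (h : Good v) : Good (opA v) := by
  have h0 : 0 ≤ al v := (h 0).1
  have e : opA v = al v • ((0, 1, 0) : St) := by simp [opA]
  intro n
  rw [e, iter_smul]
  obtain ⟨h1, h2⟩ := good_a n
  generalize opZ^[n] ((0, 1, 0) : St) = w at h1 h2
  constructor
  · have : al (al v • w) = al v * al w := by
      simp only [al, Prod.smul_fst, Prod.smul_snd, smul_eq_mul]; ring
    rw [this]; positivity
  · have : ff (al v • w) = al v * ff w := by
      simp only [ff, Prod.smul_fst, Prod.smul_snd, smul_eq_mul]; ring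
    rw [this]; positivity

end Pool.Agent.H274Z.HC
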