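import Mathlib
import Pool.Agent.H274Z.HC.Defs
import Pool.Agent.H274Z.HC.Pos

set_option autoImplicit false

open MeasureTheory ProbabilityTheory Filter Topology

namespace Pool.Agent.H274Z.HC

/-- all sites of `S` are ones -/
def Cyl (S : Finset ℤ) : Set (ℤ → Bool) := {x | ∀ i ∈ S, x i = true}

noncomputable def wt (T : Finset ℤ) (i : ℤ) : ℝ :=
  if i - 1 ∈ T then 0 else if i - 2 ∈ T then uu else pp

noncomputable def hh (T S : Finset ℤ) : ℝ := ∏ i ∈ S, wt (T ∪ S) i

lemma isClopen_cyl (S : Finset ℤ) : IsClopen (Cyl S) := by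
  have : Cyl S = ⋂ i ∈ S, (fun x : ℤ → Bool => x i) ⁻¹' {true} := by
    ext x; simp [Cyl]
  rw [this]
  exact isClopen_biInter_finset fun i _ => (isClopen_discrete _).preimage (continuous_apply i)

lemma measurableSet_cyl (S : Finset ℤ) : MeasurableSet (Cyl S) :=
  (isClopen_cyl S).isOpen.measurableSet

noncomputable def MM : ℕ → ℤ → St → Measure (ℤ → Bool)
  | 0, _, v => ENNReal.ofReal (ff v) • Measure.dirac (fun _ => false)
  | N + 1, s, v => (MM N (s + 1) (opA v)).map (fun x => Function.update x s true) +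
      (MM N (s + 1) (opZ v)).map (fun x => Function.update x s false)

lemma finite_MM (N : ℕ) : ∀ s v, IsFiniteMeasure (MM N s v) := by
  induction N with
  | zero =>
    intro s v
    refine ⟨?_⟩
    simp [MM]
  | succ N ih =>
    intro s v
    have := ih (s + 1) (opA v)
    have := ih (s + 1) (opZ v)
    unfold MM
    infer_instance

lemma hh_congr (T T' S : Finset ℤ) (h : ∀ i ∈ S, (i - 1 ∈ T ↔ i - 1 ∈ T') ∧ (i - 2 ∈ T ↔ i - 2 ∈ T')) :
    hh T S = hh T' S := by
  unfold hh wt
  refine Finset.prod_congr rfl fun i hi => ?_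
  simp only [Finset.mem_union, (h i hi).1, (h i hi).2]

lemma hh_insert (T S : Finset ℤ) (s : ℤ) (hS : ∀ i ∈ S, s < i) :
    hh T (insert s S) = wt T s * hh (insert s T) S := by
  have hs : s ∉ S := fun h => lt_irrefl _ (hS s h)
  unfold hh
  rw [Finset.prod_insert hs]
  congr 1
  · unfold wt
    have h1 : s - 1 ∉ S := fun h => by have := hS _ h; omega
    have h2 : s - 2 ∉ S := fun h => by have := hS _ h; omega
    have h3 : s - 1 ≠ s := by omega
    have h4 : s - 2 ≠ s := by omega
    simp [h1, h2, h3, h4]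
  · rw [Finset.union_insert, Finset.insert_union]

lemma real_MM (N : ℕ) : ∀ (s : ℤ) (v : St), Good v → ∀ S : Finset ℤ,
    (∀ i ∈ S, s ≤ i ∧ i < s + N) →
    (MM N s v).real (Cyl S) = v.1 * hh ∅ S + v.2.1 * hh {s - 1} S + v.2.2 * hh {s - 2} S := by
  induction N with
  | zero =>
    intro s v hv S hS
    have : S = ∅ := Finset.eq_empty_of_forall_notMem fun i hi => by
      have := hS i hi; push_cast at this; omega
    subst this
    have h0 : 0 ≤ ff v := (hv 0).2
    have : Cyl ∅ = Set.univ := by ext x; simp [Cyl]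
    rw [this]
    simp only [MM, hh, Finset.prod_empty, mul_one, Measure.real, Measure.smul_apply,
      measure_univ, smul_eq_mul, ENNReal.toReal_ofReal h0]
    rfl
  | succ N ih =>
    intro s v hv S hS
    have := finite_MM N (s + 1) (opA v)
    have := finite_MM N (s + 1) (opZ v)
    have m1 : Measurable fun x : ℤ → Bool => Function.update x s true := measurable_update_left
    have m2 : Measurable fun x : ℤ → Bool => Function.update x s false := measurable_update_left
    unfold MM
    rw [measureReal_add_apply, map_measureReal_apply m1 (measurableSet_cyl S),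
      map_measureReal_apply m2 (measurableSet_cyl S)]
    by_cases hs : s ∈ S
    · obtain ⟨S', hS', rfl⟩ : ∃ S' : Finset ℤ, s ∉ S' ∧ S = insert s S' :=
        ⟨S.erase s, by simp, (Finset.insert_erase hs).symm⟩
      have hlt : ∀ i ∈ S', s < i := fun i hi => by
        have h1 := (hS i (Finset.mem_insert_of_mem hi)).1
        have h2 : i ≠ s := fun h => hS' (h ▸ hi)
        omega
      have e1 : (fun x : ℤ → Bool => Function.update x s true) ⁻¹' Cyl (insert s S') = Cyl S' := by
        ext x
        simp only [Cyl, Set.mem_preimage, Set.mem_ofPred_eq, Finset.forall_mem_insert,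
          Function.update_self, true_and]
        refine forall₂_congr fun i hi => ?_
        rw [Function.update_of_ne (ne_of_gt (hlt i hi))]
      have e2 : (fun x : ℤ → Bool => Function.update x s false) ⁻¹' Cyl (insert s S') = ∅ := by
        ext x
        simp [Cyl]
      rw [e1, e2, measureReal_empty, ih (s + 1) _ (good_A hv) S' (fun i hi => by
        have h1 := (hS i (Finset.mem_insert_of_mem hi)).2
        have h2 := hlt i hi
        push_cast at h1
        omega), hh_insert _ _ _ hlt, hh_insert _ _ _ hlt, hh_insert _ _ _ hlt]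
      have c0 : hh (insert s ∅) S' = hh {s + 1 - 1} S' := by simp
      have c2 : hh (insert s {s - 2}) S' = hh {s + 1 - 1} S' := by
        refine hh_congr _ _ _ fun i hi => ?_
        have := hlt i hi
        simp only [Finset.mem_insert, Finset.mem_singleton]
        omega
      have w0 : wt ∅ s = pp := by simp [wt]
      have w1 : wt {s - 1} s = 0 := by simp [wt]
      have w2 : wt {s - 2} s = uu := by
        have : s - 1 ≠ s - 2 := by omega
        simp [wt, this]
      rw [c0, c2, w0, w1, w2]
      simp only [opA, al]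
      ring
    · have hlt : ∀ i ∈ S, s < i := fun i hi => by
        have h1 := (hS i hi).1
        have h2 : i ≠ s := fun h => hs (h ▸ hi)
        omega
      have e1 : ∀ b, (fun x : ℤ → Bool => Function.update x s b) ⁻¹' Cyl S = Cyl S := by
        intro b
        ext x
        simp only [Cyl, Set.mem_preimage, Set.mem_ofPred_eq]
        refine forall₂_congr fun i hi => ?_
        rw [Function.update_of_ne (ne_of_gt (hlt i hi))]
      have hS' : ∀ i ∈ S, s + 1 ≤ i ∧ i < s + 1 + N := fun i hi => by
        have h1 := (hS i hi).2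
        have h2 := hlt i hi
        push_cast at h1
        omega
      rw [e1, e1, ih (s + 1) _ (good_A hv) S hS', ih (s + 1) _ (good_Z hv) S hS']
      have c2 : hh {s - 2} S = hh ∅ S := by
        refine hh_congr _ _ _ fun i hi => ?_
        have := hlt i hi
        simp only [Finset.mem_singleton, Finset.notMem_empty, iff_false]
        omega
      rw [c2, show s + 1 - 2 = s - 1 by ring]
      simp only [opA, opZ]
      ring

lemma prob_MM (N : ℕ) (s : ℤ) : IsProbabilityMeasure (MM N s (1, 0, 0)) := by
  have := finite_MM N s (1, 0, 0)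
  have h := real_MM N s _ good_e ∅ (by simp)
  have : Cyl ∅ = Set.univ := by ext x; simp [Cyl]
  rw [this] at h
  simp only [hh, Finset.prod_empty, mul_one, add_zero] at h
  exact isProbabilityMeasure_iff_real.2 h

theorem exists_measure : ∃ μ : Measure (ℤ → Bool), IsProbabilityMeasure μ ∧
    ∀ S : Finset ℤ, μ.real (Cyl S) = hh ∅ S := by
  let ν : ℕ → ProbabilityMeasure (ℤ → Bool) := fun n =>
    ⟨MM (2 * n + 1) (-(n : ℤ)) (1, 0, 0), prob_MM _ _⟩
  obtain ⟨μ, hμ⟩ : ∃ μ, MapClusterPt μ atTop ν := by
    obtain ⟨μ, -, h⟩ := (isCompact_univ (X := ProbabilityMeasure (ℤ → Bool))).exists_mapClusterPt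
      (f := atTop) (u := ν) (by simp)
    exact ⟨μ, h⟩
  refine ⟨μ, inferInstance, fun S => ?_⟩
  let g : BoundedContinuousFunction (ℤ → Bool) ℝ := BoundedContinuousFunction.mkOfCompact
    ⟨(Cyl S).indicator fun _ => (1 : ℝ), (isClopen_cyl S).continuous_indicator continuous_const⟩
  have hg : ∀ ρ : ProbabilityMeasure (ℤ → Bool),
      ∫ x, g x ∂(ρ : Measure (ℤ → Bool)) = (ρ : Measure (ℤ → Bool)).real (Cyl S) := by
    intro ρ
    have : (fun x => g x) = (Cyl S).indicator fun _ => (1 : ℝ) := rfl
    rw [this, integral_indicator_const _ (measurableSet_cyl S)]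
    simp
  have hc : IsClosed {ρ : ProbabilityMeasure (ℤ → Bool) |
      (ρ : Measure (ℤ → Bool)).real (Cyl S) = hh ∅ S} := by
    simp only [← hg]
    exact isClosed_eq (ProbabilityMeasure.continuous_integral_boundedContinuousFunction g)
      continuous_const
  have hev : ∀ᶠ n in atTop, ν n ∈ {ρ : ProbabilityMeasure (ℤ → Bool) |
      (ρ : Measure (ℤ → Bool)).real (Cyl S) = hh ∅ S} := by
    filter_upwards [eventually_ge_atTop (S.sup Int.natAbs)] with n hn
    have := real_MM (2 * n + 1) (-(n : ℤ)) _ good_e S (fun i hi => by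
      have h1 : i.natAbs ≤ n := le_trans (Finset.le_sup (f := Int.natAbs) hi) hn
      push_cast
      omega)
    simp only [one_mul, zero_mul, add_zero] at this
    exact this
  exact hc.mem_of_mapClusterPt hμ hev

/-- the cylinders inside `A` -/
def cyls (A : Set ℤ) : Set (Set (ℤ → Bool)) := {C | ∃ S : Finset ℤ, (∀ i ∈ S, i ∈ A) ∧ C = Cyl S}

lemma cyl_inter (S T : Finset ℤ) : Cyl S ∩ Cyl T = Cyl (S ∪ T) := by
  ext x
  simp only [Cyl, Set.mem_inter_iff, Set.mem_ofPred_eq, Finset.mem_union]
  exact ⟨fun h i hi => hi.elim (h.1 i) (h.2 i),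
    fun h => ⟨fun i hi => h i (Or.inl hi), fun i hi => h i (Or.inr hi)⟩⟩

lemma isPiSystem_cyls (A : Set ℤ) : IsPiSystem (cyls A) := by
  rintro _ ⟨S, hS, rfl⟩ _ ⟨T, hT, rfl⟩ _
  refine ⟨S ∪ T, fun i hi => ?_, cyl_inter S T⟩
  exact (Finset.mem_union.1 hi).elim (hS i) (hT i)

lemma gen_le (A : Set ℤ) :
    MeasurableSpace.generateFrom (cyls A) ≤ (inferInstance : MeasurableSpace (ℤ → Bool)) := by
  refine MeasurableSpace.generateFrom_le ?_
  rintro _ ⟨S, -, rfl⟩
  exact measurableSet_cyl S

lemma meas_apply (A : Set ℤ) (i : ℤ) (hi : i ∈ A) :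
    Measurable[MeasurableSpace.generateFrom (cyls A)] fun x : ℤ → Bool => x i := by
  refine @measurable_to_bool _ (MeasurableSpace.generateFrom (cyls A)) _ ?_
  refine MeasurableSpace.measurableSet_generateFrom ⟨{i}, by simpa using hi, ?_⟩
  ext x
  simp [Cyl]

lemma meas_restrict (A : Set ℤ) :
    Measurable[MeasurableSpace.generateFrom (cyls A)] fun (x : ℤ → Bool) (a : A) => x a :=
  @measurable_pi_lambda _ _ _ (MeasurableSpace.generateFrom (cyls A)) _ _
    fun a => meas_apply A a a.2

lemma gen_univ : (inferInstance : MeasurableSpace (ℤ → Bool)) =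
    MeasurableSpace.generateFrom (cyls Set.univ) := by
  refine le_antisymm ?_ (gen_le _)
  have : Measurable[MeasurableSpace.generateFrom (cyls Set.univ)] fun (x : ℤ → Bool) => x :=
    @measurable_pi_lambda _ _ _ (MeasurableSpace.generateFrom (cyls Set.univ)) _ _
      fun a => meas_apply Set.univ a trivial
  intro s hs
  exact this hs

lemma hh_union (S T : Finset ℤ) (h : ∀ a ∈ S, ∀ b ∈ T, (2 : ℤ) < |a - b|) :
    hh ∅ (S ∪ T) = hh ∅ S * hh ∅ T := by
  have hd : Disjoint S T := Finset.disjoint_left.2 fun a ha hb => by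
    have := h a ha a hb
    simp at this
  unfold hh
  rw [Finset.prod_union hd]
  congr 1
  · refine Finset.prod_congr rfl fun i hi => ?_
    have h1 : i - 1 ∉ T := fun hb => by
      have := h i hi _ hb
      rw [lt_abs] at this
      omega
    have h2 : i - 2 ∉ T := fun hb => by
      have := h i hi _ hb
      rw [lt_abs] at this
      omega
    simp [wt, h1, h2]
  · refine Finset.prod_congr rfl fun i hi => ?_
    have h1 : i - 1 ∉ S := fun hb => by
      have := h _ hb i hi
      rw [lt_abs] at this
      omega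
    have h2 : i - 2 ∉ S := fun hb => by
      have := h _ hb i hi
      rw [lt_abs] at this
      omega
    simp [wt, h1, h2]

lemma hh_shift (S : Finset ℤ) : hh ∅ (S.image (· + 1)) = hh ∅ S := by
  unfold hh
  rw [Finset.prod_image (fun a _ b _ h => by simpa using h)]
  refine Finset.prod_congr rfl fun i _ => ?_
  have e : ∀ j, j ∈ S.image (· + 1) ↔ j - 1 ∈ S := by
    intro j
    rw [Finset.mem_image]
    constructor
    · rintro ⟨a, ha, rfl⟩; simpa using ha
    · intro h; exact ⟨j - 1, h, by ring⟩
  simp only [wt, Finset.empty_union, e, show i + 1 - 1 - 1 = i - 1 by ring,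
    show i + 1 - 2 - 1 = i - 2 by ring]

theorem exists_process : ∃ μ : Measure (ℤ → Bool), IsProbabilityMeasure μ ∧ IsHardCore μ ∧
    IsStationary μ ∧ IsKDependent 2 μ ∧ (60 / 169 : ℝ) = μ.real {x | x 0 = true} := by
  obtain ⟨μ, hp, hμ⟩ := exists_measure
  refine ⟨μ, hp, ?_, ?_, ?_, ?_⟩
  · unfold IsHardCore
    rw [ae_all_iff]
    intro i
    rw [ae_iff]
    have e : {x : ℤ → Bool | ¬ ¬ (x i = true ∧ x (i + 1) = true)} = Cyl {i, i + 1} := by
      ext x; simp [Cyl]
    rw [e, ← measureReal_eq_zero_iff, hμ]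
    unfold hh
    refine Finset.prod_eq_zero (i := i + 1) (by simp) ?_
    simp [wt]
  · unfold IsStationary
    have hm : Measurable fun (x : ℤ → Bool) (i : ℤ) => x (i + 1) :=
      measurable_pi_lambda _ fun i => measurable_pi_apply _
    have := Measure.isProbabilityMeasure_map (μ := μ) hm.aemeasurable
    refine ext_of_generate_finite (cyls Set.univ) gen_univ (isPiSystem_cyls _) ?_ (by simp)
    rintro _ ⟨S, -, rfl⟩
    rw [Measure.map_apply hm (measurableSet_cyl S)]
    have e : (fun (x : ℤ → Bool) (i : ℤ) => x (i + 1)) ⁻¹' Cyl S = Cyl (S.image (· + 1)) := by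
      ext x
      simp only [Cyl, Set.mem_preimage, Set.mem_ofPred_eq, Finset.forall_mem_image]
    rw [e, ← measureReal_eq_measureReal_iff (measure_ne_top _ _) (measure_ne_top _ _), hμ, hμ,
      hh_shift]
  · intro A B hAB
    have h1 : IndepSets (cyls A) (cyls B) μ := by
      rw [IndepSets_iff]
      rintro _ _ ⟨S, hS, rfl⟩ ⟨T, hT, rfl⟩
      rw [cyl_inter, ← ENNReal.toReal_eq_toReal_iff' (measure_ne_top _ _)
        (ENNReal.mul_ne_top (measure_ne_top _ _) (measure_ne_top _ _)), ENNReal.toReal_mul]
      have := hh_union S T fun a ha b hb => by exact_mod_cast hAB a (hS a ha) b (hT b hb)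
      rw [← hμ, ← hμ, ← hμ] at this
      exact this
    have h2 := IndepSets.indep (gen_le A) (gen_le B) (isPiSystem_cyls A) (isPiSystem_cyls B)
      rfl rfl h1
    rw [IndepFun_iff_Indep]
    exact indep_of_indep_of_le_right (indep_of_indep_of_le_left h2 (meas_restrict A).comap_le)
      (meas_restrict B).comap_le
  · have e : {x : ℤ → Bool | x 0 = true} = Cyl {0} := by
      ext x; simp [Cyl]
    rw [e, hμ]
    simp [hh, wt, pp]

theorem crit_two : (60 / 169 : ℝ) ≤ critDensity 2 := by
  refine le_csSup ⟨1, ?_⟩ exists_process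
  rintro t ⟨μ, hp, -, -, -, rfl⟩
  exact measureReal_le_one

end Pool.Agent.H274Z.HC
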